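import Pool.Agent.X223.AU.Auto

/-!
Q1 of MP_df2971_lc, negative answer: for every prime number `p` the set `X` of the nonzero integers
whose `p`-adic valuation is even is recognized by a finite automaton over `{-, 0, ..., p-1}`, and
none of the three alternatives of the trichotomy holds for it.

The sets definable in `(ℤ, +, X)` are determined by residues modulo some integer and by the leading
`p`-adic digits of finitely many affine forms; it follows that an infinite definable set of
integers contains a whole arithmetic progression `x₀ + Qℤ`. The formula `x + y ∈ X` has the order
property.
-/

set_option autoImplicit false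

namespace Pool.Agent.Results.MP_df2971_lc.TrichotomyFails

open Pool.Agent.X223.AU

theorem result (p : ℕ) [Fact p.Prime] : ∃ X : Set ℤ, Recognized p X ∧
    ¬ StablePred X ∧ ¬ SameSets X p ∧ ¬ DefinesV X p :=
  ⟨evenVal p, recognized, not_stable, not_sameSets, not_definesV⟩

end Pool.Agent.Results.MP_df2971_lc.TrichotomyFails
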